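import Mathlib

/-!
# Factors and cycles in finite loopless multigraphs: definitions
-/

namespace Pool.Agent.X50.TF

/-- A loopless multigraph: every edge `e` has two distinct ends `fst e` and `snd e` (their order
plays no role); parallel edges are allowed. -/
structure MGraph (V E : Type) where
  /-- one end of an edge -/
  fst : E → V
  /-- the other end of an edge -/
  snd : E → V
  ne : ∀ e, fst e ≠ snd e

variable {V E : Type} [Fintype V] [DecidableEq V] [Fintype E] [DecidableEq E]

/-- The edge `e` is incident with the vertex `v`. -/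
def MGraph.Inc (G : MGraph V E) (e : E) (v : V) : Prop := G.fst e = v ∨ G.snd e = v

instance (G : MGraph V E) (e : E) (v : V) : Decidable (G.Inc e v) := by
  unfold MGraph.Inc; infer_instance

/-- The edge `e` joins the vertices `u` and `v`. -/
def MGraph.Joins (G : MGraph V E) (e : E) (u v : V) : Prop :=
  (G.fst e = u ∧ G.snd e = v) ∨ (G.fst e = v ∧ G.snd e = u)

instance (G : MGraph V E) (e : E) (u v : V) : Decidable (G.Joins e u v) := by
  unfold MGraph.Joins; infer_instance

/-- The degree of `v` in the spanning subgraph with edge set `F`. -/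
def MGraph.deg (G : MGraph V E) (F : Finset E) (v : V) : ℕ :=
  (F.filter (fun e => G.Inc e v)).card

/-- `F` is (the edge set of) a `t`-factor: every vertex has degree exactly `t` in it. -/
def MGraph.IsFactor (G : MGraph V E) (t : ℕ) (F : Finset E) : Prop := ∀ v, G.deg F v = t

/-- `G` is `κ`-connected: it has more than `κ` vertices, and deleting a set `S` of fewer than `κ`
vertices leaves a graph in which any two vertices are joined by a path. -/
def MGraph.KConn (G : MGraph V E) (κ : ℕ) : Prop :=
  κ < Fintype.card V ∧ ∀ S : Finset V, S.card < κ → ∀ u v, u ∉ S → v ∉ S →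
    Relation.ReflTransGen (fun x y => y ∉ S ∧ ∃ e, G.Joins e x y) u v

/-- `C` is (the edge set of) a cycle: a nonempty connected `2`-regular subgraph. -/
def MGraph.IsCycle (G : MGraph V E) (C : Finset E) : Prop :=
  C.Nonempty ∧ (∀ v, G.deg C v = 0 ∨ G.deg C v = 2) ∧
    ∀ u v, G.deg C u = 2 → G.deg C v = 2 →
      Relation.ReflTransGen (fun x y => ∃ e ∈ C, G.Joins e x y) u v

/-- The assertion of the question for one value of `κ`: for all positive `r, t` with
`1/κ ≤ t/r ≤ 1`, every `κ`-connected `r`-regular graph with a `t`-factor and every family `O` of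
edge-disjoint cycles of length at least `3`, some `t`-factor meets every member of `O`. -/
def Claim (κ : ℕ) : Prop :=
  ∀ r t : ℕ, 0 < r → 0 < t → (1 / κ : ℚ) ≤ t / r → (t / r : ℚ) ≤ 1 →
    ∀ (V E : Type) [Fintype V] [DecidableEq V] [Fintype E] [DecidableEq E] (G : MGraph V E),
      G.KConn κ → G.IsFactor r Finset.univ → (∃ F, G.IsFactor t F) →
      ∀ O : Finset (Finset E), (∀ C ∈ O, G.IsCycle C ∧ 3 ≤ C.card) →
        (∀ C ∈ O, ∀ D ∈ O, C ≠ D → Disjoint C D) →
        ∃ F, G.IsFactor t F ∧ ∀ C ∈ O, (F ∩ C).Nonempty

end Pool.Agent.X50.TF
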