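import Pool.Agent.X50.TF.Data

/-!
# Every 26-factor misses the triangle
-/

namespace Pool.Agent.X50.TF

open Finset

/-- number of ends of `e` among the three vertices of block `j` -/
def sB (j e : ℕ) : ℕ :=
  (bif inc e (3 * j) then 1 else 0) + (bif inc e (3 * j + 1) then 1 else 0) +
    (bif inc e (3 * j + 2) then 1 else 0)

/-- number of ends of `e` in `U` -/
def sU (e : ℕ) : ℕ :=
  (bif inc e 39 then 1 else 0) + (bif inc e 40 then 1 else 0) + (bif inc e 41 then 1 else 0) +
    (bif inc e 42 then 1 else 0)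

theorem block_aux : allB (fun j => allB (fun e =>
    Nat.beq (e / 3) j || Nat.beq (sB j e % 2) 0) 667) 12 = true := by decide +kernel

theorem U_aux1 : allB (fun e => Nat.ble 1 (sU e)) 36 = true := by decide +kernel

theorem U_aux2 : allB (fun e => !(Nat.ble 43 e) || !(Nat.ble e 120) || Nat.ble 1 (sU e)) 667
    = true := by decide +kernel

theorem A_aux1 : allB (fun e => !(inc e 43) || (Nat.ble 43 e && Nat.ble e 120) ||
    (Nat.beq e 39 || Nat.beq e 40 || Nat.beq e 41)) 667 = true := by decide +kernel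

theorem A_aux2 : allB (fun e => !(inc e 44) || (Nat.ble 43 e && Nat.ble e 120) ||
    (Nat.beq e 39 || Nat.beq e 40 || Nat.beq e 42)) 667 = true := by decide +kernel

theorem deg_sum (F : Finset (Fin 667)) (v : Fin 46) :
    G.deg F v = ∑ e ∈ F, (bif inc e v then 1 else 0) := by
  unfold MGraph.deg
  rw [Finset.card_filter]
  apply Finset.sum_congr rfl
  intro e _
  by_cases h : inc e v = true
  · rw [if_pos ((inc_iff e v).mpr h), h]; rfl
  · rw [if_neg (fun h' => h ((inc_iff e v).mp h'))]
    simp only [Bool.not_eq_true] at h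
    rw [h]; rfl

theorem deg_compl (F : Finset (Fin 667)) (hF : G.IsFactor 26 F) (v : Fin 46) :
    G.deg (univ \ F) v = 3 := by
  have h1 := reg v
  have h2 := hF v
  rw [deg_sum] at h1 h2 ⊢
  have h3 := Finset.sum_sdiff (Finset.subset_univ F)
    (f := fun e : Fin 667 => (bif inc e v then 1 else 0 : ℕ))
  omega

theorem block (K : Finset (Fin 667)) (hK : ∀ v, G.deg K v = 3) (j : ℕ) (hj : j < 12) :
    ∃ e ∈ K, (e : ℕ) / 3 = j := by
  by_contra hc
  push Not at hc
  have h0 := hK ⟨3 * j, by omega⟩
  have h1 := hK ⟨3 * j + 1, by omega⟩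
  have h2 := hK ⟨3 * j + 2, by omega⟩
  rw [deg_sum] at h0 h1 h2
  have hs : ∑ e ∈ K, sB j e = 9 := by
    unfold sB
    rw [Finset.sum_add_distrib, Finset.sum_add_distrib]
    simp only at h0 h1 h2
    omega
  have hev : 2 ∣ ∑ e ∈ K, sB j e := by
    apply Finset.dvd_sum
    intro e he
    have h := allB_spec _ _ (allB_spec _ _ block_aux j hj) e e.2
    simp only [Bool.or_eq_true, Nat.beq_eq] at h
    rcases h with h | h
    · exact absurd h (hc e he)
    · exact Nat.dvd_of_mod_eq_zero h
  rw [hs] at hev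
  omega

theorem noUA (K : Finset (Fin 667)) (hK : ∀ v, G.deg K v = 3) (f : Fin 667) (hf : f ∈ K)
    (h43 : 43 ≤ (f : ℕ)) (h120 : (f : ℕ) ≤ 120) : False := by
  have hs : ∑ e ∈ K, sU e = 12 := by
    have h0 := hK ⟨39, by omega⟩
    have h1 := hK ⟨40, by omega⟩
    have h2 := hK ⟨41, by omega⟩
    have h3 := hK ⟨42, by omega⟩
    rw [deg_sum] at h0 h1 h2 h3
    unfold sU
    rw [Finset.sum_add_distrib, Finset.sum_add_distrib, Finset.sum_add_distrib]
    simp only at h0 h1 h2 h3
    omega
  -- edges with index below 36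
  have hD : 12 ≤ (K.filter (fun e : Fin 667 => (e : ℕ) < 36)).card := by
    have : (Finset.range 12) ⊆ (K.filter (fun e : Fin 667 => (e : ℕ) < 36)).image
        (fun e : Fin 667 => (e : ℕ) / 3) := by
      intro j hj
      rw [Finset.mem_range] at hj
      obtain ⟨e, he, hej⟩ := block K hK j hj
      rw [Finset.mem_image]
      refine ⟨e, ?_, hej⟩
      rw [Finset.mem_filter]
      exact ⟨he, by omega⟩
    have h2 := Finset.card_le_card this
    rw [Finset.card_range] at h2
    exact h2.trans Finset.card_image_le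
  have hle : ∀ e ∈ K, (if (e : ℕ) < 36 then 1 else 0) + (if e = f then 1 else 0) ≤ sU e := by
    intro e _
    by_cases h1 : (e : ℕ) < 36
    · have h2 := allB_spec _ _ U_aux1 e h1
      rw [Nat.ble_eq] at h2
      have h3 : e ≠ f := by rintro rfl; omega
      rw [if_pos h1, if_neg h3]
      exact h2
    · rw [if_neg h1]
      by_cases h3 : e = f
      · rw [if_pos h3]
        subst h3
        have h2 := allB_spec _ _ U_aux2 e e.2
        simp only [Bool.or_eq_true, Bool.not_eq_true'] at h2
        rcases h2 with (h2 | h2) | h2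
        · have : Nat.ble 43 e = true := Nat.ble_eq.mpr h43
          rw [this] at h2; simp at h2
        · have : Nat.ble e 120 = true := Nat.ble_eq.mpr h120
          rw [this] at h2; simp at h2
        · rw [Nat.ble_eq] at h2
          simpa using h2
      · rw [if_neg h3]
        exact Nat.zero_le _
  have hsum := Finset.sum_le_sum hle
  rw [hs, Finset.sum_add_distrib, ← Finset.card_filter, ← Finset.card_filter] at hsum
  have h1 : 1 ≤ (K.filter (fun e => e = f)).card := by
    apply Finset.card_pos.mpr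
    exact ⟨f, by rw [Finset.mem_filter]; exact ⟨hf, rfl⟩⟩
  omega

theorem forced (K : Finset (Fin 667)) (hK : ∀ v, G.deg K v = 3) :
    (⟨39, by omega⟩ : Fin 667) ∈ K ∧ (⟨41, by omega⟩ : Fin 667) ∈ K ∧
      (⟨42, by omega⟩ : Fin 667) ∈ K := by
  have key : ∀ (v : Fin 46) (a b c : Fin 667), (∀ e : Fin 667, G.Inc e v → e ∈ K →
      e ∈ ({a, b, c} : Finset (Fin 667))) → a ∈ K ∧ b ∈ K ∧ c ∈ K := by
    intro v a b c h
    have h1 := hK v
    unfold MGraph.deg at h1
    have hsub : K.filter (fun e => G.Inc e v) ⊆ ({a, b, c} : Finset (Fin 667)) := by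
      intro e he
      rw [Finset.mem_filter] at he
      exact h e he.2 he.1
    have hcard : ({a, b, c} : Finset (Fin 667)).card ≤ 3 := Finset.card_le_three
    have heq := Finset.eq_of_subset_of_card_le hsub (by rw [h1]; exact hcard)
    have hin : ∀ x ∈ ({a, b, c} : Finset (Fin 667)), x ∈ K := by
      intro x hx
      rw [← heq, Finset.mem_filter] at hx
      exact hx.1
    exact ⟨hin a (by simp), hin b (by simp), hin c (by simp)⟩
  have k1 := key ⟨43, by omega⟩ ⟨39, by omega⟩ ⟨40, by omega⟩ ⟨41, by omega⟩ (by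
    intro e he heK
    rw [inc_iff] at he
    have h := allB_spec _ _ A_aux1 e e.2
    simp only [Bool.or_eq_true, Bool.not_eq_true', Bool.and_eq_true, Nat.beq_eq, Nat.ble_eq] at h
    rcases h with (h | h) | h
    · exfalso
      have he' : inc e 43 = true := he
      rw [he'] at h; simp at h
    · exact absurd (noUA K hK e heK h.1 h.2) not_false
    · simp only [Finset.mem_insert, Finset.mem_singleton, Fin.ext_iff]
      tauto)
  have k2 := key ⟨44, by omega⟩ ⟨39, by omega⟩ ⟨40, by omega⟩ ⟨42, by omega⟩ (by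
    intro e he heK
    rw [inc_iff] at he
    have h := allB_spec _ _ A_aux2 e e.2
    simp only [Bool.or_eq_true, Bool.not_eq_true', Bool.and_eq_true, Nat.beq_eq, Nat.ble_eq] at h
    rcases h with (h | h) | h
    · exfalso
      have he' : inc e 44 = true := he
      rw [he'] at h; simp at h
    · exact absurd (noUA K hK e heK h.1 h.2) not_false
    · simp only [Finset.mem_insert, Finset.mem_singleton, Fin.ext_iff]
      tauto)
  exact ⟨k1.1, k1.2.2, k2.2.2⟩

/-- the triangle -/
def T : Finset (Fin 667) := {39, 41, 42}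

theorem T_deg : ∀ v : Fin 46, G.deg T v = 0 ∨ G.deg T v = 2 := by decide +kernel

theorem T_conn : ∀ u v : Fin 46, G.deg T u = 2 → G.deg T v = 2 → u = v ∨
    ∃ e ∈ T, G.Joins e u v := by decide +kernel

theorem T_cycle : G.IsCycle T := by
  refine ⟨⟨39, by decide⟩, T_deg, ?_⟩
  intro u v hu hv
  rcases T_conn u v hu hv with h | h
  · rw [h]
  · exact Relation.ReflTransGen.single h

theorem T_card : T.card = 3 := by decide

theorem misses (F : Finset (Fin 667)) (hF : G.IsFactor 26 F) : Disjoint F T := by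
  have h := forced (univ \ F) (deg_compl F hF)
  rw [Finset.disjoint_right]
  intro e he
  simp only [T, Finset.mem_insert, Finset.mem_singleton] at he
  simp only [Finset.mem_sdiff, Finset.mem_univ, true_and] at h
  rcases he with rfl | rfl | rfl
  · exact h.1
  · exact h.2.1
  · exact h.2.2

theorem main : G.KConn 3 ∧ G.IsFactor 29 univ ∧ (∃ F, G.IsFactor 26 F) ∧ G.IsCycle T ∧
    T.card = 3 ∧ ∀ F, G.IsFactor 26 F → Disjoint F T :=
  ⟨kconn, reg, fac, T_cycle, T_card, misses⟩

theorem not_claim (κ : ℕ) (h2 : 2 ≤ κ) (h3 : κ ≤ 3) : ¬ Claim κ := by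
  intro h
  have hk : G.KConn κ := by
    refine ⟨lt_of_le_of_lt h3 kconn.1, fun S hS => kconn.2 S (lt_of_lt_of_le hS h3)⟩
  have hκ : (2 : ℚ) ≤ κ := by exact_mod_cast h2
  obtain ⟨F, hF, hO⟩ := h 29 26 (by norm_num) (by norm_num)
    (by
      rw [div_le_div_iff₀ (by linarith) (by norm_num)]
      push_cast
      linarith) (by norm_num) (Fin 46) (Fin 667) G hk reg fac {T}
    (by
      intro C hC
      rw [Finset.mem_singleton] at hC
      subst hC
      exact ⟨T_cycle, T_card.ge⟩)
    (by
      intro C hC D hD hne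
      rw [Finset.mem_singleton] at hC hD
      exact absurd (hC.trans hD.symm) hne)
  have h1 := hO T (Finset.mem_singleton_self _)
  have h4 := misses F hF
  rw [Finset.disjoint_iff_inter_eq_empty] at h4
  rw [h4] at h1
  exact Finset.not_nonempty_empty h1

end Pool.Agent.X50.TF
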