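import Pool.Agent.X50.TF.Def

/-!
# The counterexample

Vertices: block vertices `3j+i` (`j < 13`, `i < 3`), core vertices `39..42` (set `U`) and
`43, 44, 45` (set `A`). Edges: `3j+i` is the edge from block vertex `3j+i` to the core; `39, 40`
join `43, 44`; `41` joins `43, 45`; `42` joins `44, 45`; the edges `43..120` join `A` and `U`; the
remaining ones are inside the blocks, `14` parallel edges for each pair.
-/

namespace Pool.Agent.X50.TF

/-- first ends, base 64 -/
def TA : ℕ := 30967334258377710923075506234034492759159654971826071766310688712108305067684666605066361046556417088272340370016983348865519883069782372002063390650040093392407188326923822207531042983348462940173650735622493896574293461535292824889134791999538107445607163126983281847663206842978971571248350137736826643569345375916979118169170916451338585727775581174284031977996264085246969624144693592035081500132464513106780371825345109575854048482918673400695228139367493452896965686876051556055914191898397409187508434361983600710383750264598276706489054824884662080773393048821422316867879857474243803586026944134948804091162986949076456936111665065856735245496480291289615626967951768915027970236508455174612817522302230222615101815992354614349715680405411359961288951297799785684861241101636658013051161757958704161211149074903436547271504893558424941924752778592979591310416576428027675187549140912781868884722481215184474465812919240828307317737613108972048537172322665989955522286875423085916716657831420670251080537890538090291463088368345301135283709214593612659008988863254225829899195941482172785779072777955719158820951510121253585052041914889516760420056255167930439739527886742934685000775897849798720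
/-- second ends, base 64 -/
def TB : ℕ := 31804289238333865272347817257771728127614430553361499493509301262150187399141249177907995137935988964903914584985264804136275871889073751950637708084273097630607491278102493515947917160071433571632146857260198987593325011573356366891907119751434654851927464501975925824627477664205421434590058710831652598668514163858214006005969399650261156281930912176314012125376146800026277108195376083843967900072141710133696086293579335791087309184107417600528799700415902842228641551125794765699459772702139140022090918218826449312646460626032221236657253966751934462482296779485615888103681893385948431563212816200685852283731306511584262718209700563450035889364073272658302881526133940802849697120497758292806819243137289516096436554738673781105958295251065121150758381112843266442689072577609392164847073091495891103759325205104309757523817145487922122007328269739819037226911157112000163821925064236095484060966772358880546720243315017372119486636748022169404075089543993245061037484088725591337460972332992682498750684659347635079498295128318012381500962959666676836522006416807827413045896382656571141005735371070548439129699032242880851806264313960316292081288303898633053318220357624673253581634010366257768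
/-- complement of a 26-factor -/
def MF : ℕ := 37377795177599243437969892490986365992614514672906946390588647661253230832633875487346319699925162421531822149730856372036806244493698176890951514003680605553693198199257539612267322350698587296529
/-- neighbourhoods, 64 bits each -/
def TADJ : ℕ := 32309561839837809801965313670344634495147315079831499914938339041699918962790396247595032198043959778178550099961969608902922222520312108802654841108983154887894517719692328107628471044084307808292356174459786829624253959844300161661855113685188613839405590579643171812394138881984278448602857308743358041217856860118041593958516039677198059465513952058969274576980784241641741736444630209734412741472783389622069576480216611286425913740342015350679606561301212631398485147061383261322051474545730028981511920552292779184039053843663040498261935239269071827659684834777078103779820549386094799914757026057475646482938454644773856973610684324003798156236080363308726035679415654519885586665006529168263504709650384812208793437012563973820579169740789486299541163472836790908079029008601216288013529997125405573186631379729902673944356196351485527872566080197899178001240154284490758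

/-- first end -/
def ea (e : ℕ) : ℕ := (TA >>> (6 * e)) % 64 % 46
/-- second end -/
def eb (e : ℕ) : ℕ := (TB >>> (6 * e)) % 64 % 46
/-- incidence -/
def inc (e v : ℕ) : Bool := Nat.beq (ea e) v || Nat.beq (eb e) v

/-- bounded universal quantifier -/
def allB (p : ℕ → Bool) : ℕ → Bool
  | 0 => true
  | n + 1 => p n && allB p n

theorem allB_spec (p : ℕ → Bool) (n : ℕ) (h : allB p n = true) : ∀ k < n, p k = true := by
  induction n with
  | zero => intro k hk; omega
  | succ n ih =>
    intro k hk
    simp only [allB, Bool.and_eq_true] at h
    rcases Nat.lt_succ_iff_lt_or_eq.mp hk with h1 | h1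
    · exact ih h.2 k h1
    · rw [h1]; exact h.1

/-- counting -/
def cnt (p : ℕ → Bool) : ℕ → ℕ
  | 0 => 0
  | n + 1 => cnt p n + (bif p n then 1 else 0)

theorem cnt_spec (p : ℕ → Bool) (n : ℕ) :
    (Finset.univ.filter (fun e : Fin n => p e = true)).card = cnt p n := by
  induction n with
  | zero => simp [cnt]
  | succ n ih =>
    rw [Finset.card_filter] at ih ⊢
    rw [Fin.sum_univ_castSucc]
    simp only [cnt, Fin.val_last, Fin.val_castSucc]
    rw [ih]
    by_cases h : p n = true <;> simp [h]

theorem ne_ends : allB (fun e => !(Nat.beq (ea e) (eb e))) 667 = true := by decide +kernel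

/-- the graph -/
def G : MGraph (Fin 46) (Fin 667) where
  fst e := ⟨ea e, Nat.mod_lt _ (by norm_num)⟩
  snd e := ⟨eb e, Nat.mod_lt _ (by norm_num)⟩
  ne e := by
    intro h
    have h1 := allB_spec _ _ ne_ends e e.2
    have h2 : ea e = eb e := by simpa using congrArg Fin.val h
    rw [h2] at h1
    simp at h1

theorem inc_iff (e : Fin 667) (v : Fin 46) : G.Inc e v ↔ inc e v = true := by
  unfold MGraph.Inc inc G
  simp [Fin.ext_iff, Nat.beq_eq]

theorem deg_eq_cnt (F : Finset (Fin 667)) (q : ℕ → Bool) (hF : ∀ e : Fin 667, e ∈ F ↔ q e = true)
    (v : Fin 46) : G.deg F v = cnt (fun e => inc e v && q e) 667 := by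
  rw [← cnt_spec]
  unfold MGraph.deg
  apply congrArg Finset.card
  ext e
  simp only [Finset.mem_filter, Finset.mem_univ, true_and, inc_iff, Bool.and_eq_true, hF]
  tauto

theorem deg_univ_aux :
    allB (fun v => Nat.beq (cnt (fun e => inc e v && true) 667) 29) 46 = true := by
  decide +kernel

theorem deg_fac_aux :
    allB (fun v => Nat.beq (cnt (fun e => inc e v && !(MF.testBit e)) 667) 26) 46 = true := by
  decide +kernel

theorem reg : G.IsFactor 29 Finset.univ := by
  intro v
  rw [deg_eq_cnt Finset.univ (fun _ => true) (fun e => by simp) v]
  exact Nat.eq_of_beq_eq_true (allB_spec _ _ deg_univ_aux v v.2)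

theorem fac : ∃ F, G.IsFactor 26 F := by
  refine ⟨Finset.univ.filter (fun e : Fin 667 => MF.testBit e = false), ?_⟩
  intro v
  rw [deg_eq_cnt _ (fun e => !(MF.testBit e)) (fun e => by
    simp only [Finset.mem_filter, Finset.mem_univ, true_and, Bool.not_eq_true']) v]
  exact Nat.eq_of_beq_eq_true (allB_spec _ _ deg_fac_aux v v.2)

/-! ### connectivity -/

/-- neighbourhood mask -/
def nb (v : ℕ) : ℕ := (TADJ >>> (64 * v)) % 2 ^ 64

/-- one round of growth -/
def grow (al m : ℕ) : ℕ → ℕ
  | 0 => m
  | n + 1 => bif m.testBit n then (grow al m n) ||| (nb n &&& al) else grow al m n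

theorem grow_spec (al m n v : ℕ) (h : (grow al m n).testBit v = true) :
    m.testBit v = true ∨ (al.testBit v = true ∧ ∃ w < n, m.testBit w = true ∧
      (nb w).testBit v = true) := by
  induction n with
  | zero => exact Or.inl h
  | succ n ih =>
    unfold grow at h
    cases hb : m.testBit n
    · rw [hb] at h
      rcases ih h with h1 | ⟨h1, w, hw, h2, h3⟩
      · exact Or.inl h1
      · exact Or.inr ⟨h1, w, by omega, h2, h3⟩
    · rw [hb] at h
      simp only [cond_true, Nat.testBit_or, Nat.testBit_and, Bool.or_eq_true,
        Bool.and_eq_true] at h
      rcases h with h | ⟨h1, h2⟩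
      · rcases ih h with h1 | ⟨h1, w, hw, h2, h3⟩
        · exact Or.inl h1
        · exact Or.inr ⟨h1, w, by omega, h2, h3⟩
      · exact Or.inr ⟨h2, n, by omega, hb, h1⟩

/-- edge `e` joins `u` and `v` -/
def joinsB (e u v : ℕ) : Bool :=
  (Nat.beq (ea e) u && Nat.beq (eb e) v) || (Nat.beq (ea e) v && Nat.beq (eb e) u)

theorem nb_aux : allB (fun w => allB (fun v => !((nb w).testBit v) ||
    !(allB (fun e => !(joinsB e w v)) 667)) 46) 46 = true := by decide +kernel

theorem not_allB (p : ℕ → Bool) (n : ℕ) (h : allB p n = false) : ∃ k < n, p k = false := by
  by_contra hc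
  push Not at hc
  have : allB p n = true := by
    clear h
    induction n with
    | zero => rfl
    | succ n ih =>
      simp only [allB, Bool.and_eq_true]
      refine ⟨?_, ih (fun k hk => hc k (by omega))⟩
      have := hc n (by omega)
      simpa using this
  rw [this] at h
  simp at h

theorem nb_edge (w v : Fin 46) (h : (nb w).testBit v = true) : ∃ e, G.Joins e w v := by
  have h1 := allB_spec _ _ (allB_spec _ _ nb_aux w w.2) v v.2
  simp only [Bool.or_eq_true, Bool.not_eq_true'] at h1
  rcases h1 with h1 | h1
  · rw [h1] at h; simp at h
  · obtain ⟨e, he, h2⟩ := not_allB _ _ h1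
    refine ⟨⟨e, he⟩, ?_⟩
    have h3 : joinsB e w v = true := by simpa using h2
    unfold joinsB at h3
    simp only [Bool.or_eq_true, Bool.and_eq_true, Nat.beq_eq] at h3
    rcases h3 with ⟨h4, h5⟩ | ⟨h4, h5⟩
    · exact Or.inl ⟨Fin.ext h4, Fin.ext h5⟩
    · exact Or.inr ⟨Fin.ext h4, Fin.ext h5⟩

/-- `k` rounds of growth -/
def reach (al r : ℕ) : ℕ → ℕ
  | 0 => 1 <<< r
  | k + 1 => grow al (reach al r k) 46

/-- the step relation avoiding `S` -/
def R (S : Finset (Fin 46)) (x y : Fin 46) : Prop := y ∉ S ∧ ∃ e, G.Joins e x y

theorem reach_spec (S : Finset (Fin 46)) (al : ℕ) (r : Fin 46)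
    (hal : ∀ v : Fin 46, al.testBit v = true → v ∉ S) (k : ℕ) :
    ∀ v : Fin 46, (reach al r k).testBit v = true → Relation.ReflTransGen (R S) r v := by
  induction k with
  | zero =>
    intro v hv
    unfold reach at hv
    have : v = r := by
      apply Fin.ext
      rw [Nat.testBit_shiftLeft] at hv
      simp only [ge_iff_le, Bool.and_eq_true, decide_eq_true_eq] at hv
      have h2 := hv.2
      rw [Nat.testBit_one_eq_true_iff_self_eq_zero] at h2
      omega
    rw [this]
  | succ k ih =>
    intro v hv
    unfold reach at hv
    rcases grow_spec _ _ _ _ hv with h | ⟨h1, w, hw, h2, h3⟩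
    · exact ih v h
    · refine (ih ⟨w, hw⟩ h2).tail ⟨hal v h1, nb_edge ⟨w, hw⟩ v h3⟩

/-- the allowed mask -/
def al2 (x y : ℕ) : ℕ := (2 ^ 46 - 1) ^^^ ((1 <<< x) ||| (1 <<< y))

/-- the root -/
def rt (x y : ℕ) : ℕ :=
  bif Nat.beq x 43 || Nat.beq y 43 then (bif Nat.beq x 44 || Nat.beq y 44 then 45 else 44) else 43

theorem al2_aux : allB (fun x => allB (fun y => allB (fun v =>
    (al2 x y).testBit v == !(Nat.beq v x || Nat.beq v y)) 46) 46) 46 = true := by decide +kernel

theorem reach_aux : allB (fun x => allB (fun y =>
    Nat.beq (reach (al2 x y) (rt x y) 4) (al2 x y)) (x + 1)) 46 = true := by decide +kernel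

theorem reach_aux0 : Nat.beq (reach (2 ^ 46 - 1) 43 5) (2 ^ 46 - 1) = true := by decide +kernel

theorem mask_aux : allB (fun v => (2 ^ 46 - 1).testBit v) 46 = true := by decide +kernel

theorem rt_aux : allB (fun x => allB (fun y => Nat.ble (rt x y) 45 &&
    !(Nat.beq (rt x y) x) && !(Nat.beq (rt x y) y)) 46) 46 = true := by decide +kernel

theorem rev (S : Finset (Fin 46)) (a b : Fin 46) (h : Relation.ReflTransGen (R S) a b)
    (ha : a ∉ S) : b ∉ S ∧ Relation.ReflTransGen (R S) b a := by
  induction h with
  | refl => exact ⟨ha, Relation.ReflTransGen.refl⟩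
  | tail _ hbc ih =>
    obtain ⟨hc, e, he⟩ := hbc
    refine ⟨hc, Relation.ReflTransGen.head ⟨ih.1, e, ?_⟩ ih.2⟩
    rcases he with h | h
    · exact Or.inr ⟨h.1, h.2⟩
    · exact Or.inl ⟨h.1, h.2⟩

theorem conn2 (x y : Fin 46) (hxy : y ≤ x) (u v : Fin 46) (hu : u ∉ ({x, y} : Finset (Fin 46)))
    (hv : v ∉ ({x, y} : Finset (Fin 46))) :
    Relation.ReflTransGen (R {x, y}) u v := by
  have hr := allB_spec _ _ (allB_spec _ _ rt_aux x x.2) y y.2
  simp only [Bool.and_eq_true, Bool.not_eq_true', Nat.ble_eq] at hr
  obtain ⟨⟨hr1, hr2⟩, hr3⟩ := hr
  have hreach := Nat.eq_of_beq_eq_true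
    (allB_spec _ _ (allB_spec _ _ reach_aux x x.2) y (by
      have : (y : ℕ) ≤ x := hxy
      omega))
  have hbit : ∀ w : Fin 46, (al2 x y).testBit w = true ↔ w ∉ ({x, y} : Finset (Fin 46)) := by
    intro w
    have := allB_spec _ _ (allB_spec _ _ (allB_spec _ _ al2_aux x x.2) y y.2) w w.2
    rw [beq_iff_eq] at this
    rw [this]
    simp only [Bool.not_eq_true', Bool.or_eq_false_iff, Finset.mem_insert, Finset.mem_singleton,
      not_or, Fin.ext_iff]
    constructor
    · rintro ⟨h1, h2⟩
      exact ⟨Nat.ne_of_beq_eq_false h1, Nat.ne_of_beq_eq_false h2⟩
    · rintro ⟨h1, h2⟩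
      constructor
      · cases h : Nat.beq w x
        · rfl
        · exact absurd (Nat.eq_of_beq_eq_true h) h1
      · cases h : Nat.beq w y
        · rfl
        · exact absurd (Nat.eq_of_beq_eq_true h) h2
  have key : ∀ w : Fin 46, w ∉ ({x, y} : Finset (Fin 46)) →
      Relation.ReflTransGen (R {x, y}) ⟨rt x y, by omega⟩ w := by
    intro w hw
    apply reach_spec {x, y} (al2 x y) ⟨rt x y, by omega⟩ (fun v hv => (hbit v).mp hv) 4
    show (reach (al2 x y) (rt x y) 4).testBit w = true
    rw [hreach]
    exact (hbit w).mpr hw
  have hroot : (⟨rt x y, by omega⟩ : Fin 46) ∉ ({x, y} : Finset (Fin 46)) := by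
    simp only [Finset.mem_insert, Finset.mem_singleton, not_or, Fin.ext_iff]
    exact ⟨Nat.ne_of_beq_eq_false hr2, Nat.ne_of_beq_eq_false hr3⟩
  exact (rev _ _ _ (key u hu) hroot).2.trans (key v hv)

theorem conn0 (u v : Fin 46) : Relation.ReflTransGen (R ∅) u v := by
  have hreach := Nat.eq_of_beq_eq_true reach_aux0
  have key : ∀ w : Fin 46, Relation.ReflTransGen (R ∅) ⟨43, by omega⟩ w := by
    intro w
    apply reach_spec ∅ (2 ^ 46 - 1) ⟨43, by omega⟩ (fun v _ => by simp) 5
    show (reach (2 ^ 46 - 1) 43 5).testBit w = true
    rw [hreach]
    exact allB_spec _ _ mask_aux w w.2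
  exact (rev _ _ _ (key u) (by simp)).2.trans (key v)

theorem kconn : G.KConn 3 := by
  refine ⟨by simp, ?_⟩
  intro S hS u v hu hv
  show Relation.ReflTransGen (R S) u v
  have h3 : S.card = 0 ∨ S.card = 1 ∨ S.card = 2 := by omega
  rcases h3 with h | h | h
  · rw [Finset.card_eq_zero] at h
    subst h
    exact conn0 u v
  · rw [Finset.card_eq_one] at h
    obtain ⟨x, rfl⟩ := h
    have := conn2 x x le_rfl u v (by simpa using hu) (by simpa using hv)
    simpa using this
  · rw [Finset.card_eq_two] at h
    obtain ⟨x, y, _, rfl⟩ := h
    rcases le_total y x with hle | hle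
    · exact conn2 x y hle u v hu hv
    · rw [Finset.pair_comm] at hu hv ⊢
      exact conn2 y x hle u v hu hv

end Pool.Agent.X50.TF
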